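import Mathlib
import Pool.Agent.Helper919_LB.Final
import Pool.Agent.Helper919_LB.Amb
import Pool.Agent.Y561.KS.Cohen

/-!
# Martin's axiom does not imply the Lipschitz Baumgartner axiom

There is a preordered set `P` of forcing conditions such that every condition forces that `ω₁` is
preserved, that Martin's axiom for `ℵ₁` dense sets holds, that the continuum is at most `ℵ₂` (these
two imply `MA` and the negation of `CH`), and that the axiom `BA_Lip(2^ω)` fails.

Sketch. First `ℵ₁` Cohen reals `x_a` and `y_a` (`a < ω₁`) are added. Consider the statement (*): in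
every uncountable family of pairwise disjoint finite tuples of indices of the `x_a` and `y_a` (all
of the same kind) there are two tuples such that, for some `N`, the reals `y` at corresponding
places differ for the first time at `N`, and the reals `x` at corresponding places agree up to and
including `N`. It says that no function from an uncountable set of the `x_a` to the `y_a` is
injective and Lipschitz, and more. A finite support iteration of length `ω₂` adds at each stage a
maximal set of coordinates such that the iteration satisfies the chain condition which corresponds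
to (*): in every uncountable family of pairs (condition, tuple), with pairwise disjoint tuples,
there are two pairs with a common extension of the conditions which forces that the tuples are as
in (*). If a name for a ccc preorder `R` is not treated at a stage `α`, then this is witnessed by a
family of conditions and tuples, and the poset of the finite sets of indices of members of this
family, for which the conditions belong to the generic filter and any two tuples are as in (*),
satisfies the strong chain condition; so it is treated at a later stage, and gives an uncountable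
antichain of `R`. Hence Martin's axiom for `ℵ₁` dense sets holds in the extension. Finally the
product with an `ℵ₂`-closed collapse makes the continuum at most `ℵ₂`.

The forcing language is the one of `Pool.Agent.Helper669.Forcing`: a sentence is the set of the
conditions which force it, `fnot`, `fand`, `fall` are the primitive connectives and `fimp`, `fex`
are defined from them classically; a name for a subset of a ground model set `X` is a map sending
`x : X` to a set of conditions, and `meets N` says that the generic filter meets `N`. The sentence
`MartinHolds P X` is the translation into the forcing language of the proposition `MartinFor X`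
(both are in `Pool.Agent.W684.FM.Defs`), the sentence `BALipN P` is the translation of the
proposition `BALipEnum` (both are in `Pool.Agent.Helper919_LB.Defs`); `ContinuumLe P Y` says that
in the extension there is a map from `Y` onto the set of all functions from the natural numbers to
themselves.
-/

set_option autoImplicit false

namespace Pool.Agent.Results.MP_93aff1_lc.MartinNoLip

open Cardinal Pool.Agent.Helper669.Forcing Pool.Agent.W684.FM Pool.Agent.Helper919LB

/-- The countable chain condition: every set of pairwise incompatible conditions is countable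
(a smaller condition is stronger). -/
def IsCCC (P : Type) [Preorder P] : Prop :=
  ∀ A : Set P, (∀ p ∈ A, ∀ q ∈ A, p ≠ q → ¬ ∃ r : P, r ≤ p ∧ r ≤ q) → A.Countable

/-- Martin's axiom for `ℵ₁` dense sets: for every nonempty preordered set `P` with the countable
chain condition and every family of at most `ℵ₁` dense subsets of `P` there is a filter in `P`
which meets each of them. -/
def MartinAxiomAleph1 : Prop :=
  ∀ (P : Type) [Preorder P] [Nonempty P], IsCCC P →
    ∀ 𝒟 : Set (Set P), #𝒟 ≤ ℵ₁ → (∀ D ∈ 𝒟, ∀ p : P, ∃ q ∈ D, q ≤ p) →
      ∃ G : Set P, G.Nonempty ∧ (∀ p ∈ G, ∀ q : P, p ≤ q → q ∈ G) ∧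
        (∀ p ∈ G, ∀ q ∈ G, ∃ r ∈ G, r ≤ p ∧ r ≤ q) ∧ ∀ D ∈ 𝒟, (G ∩ D).Nonempty

/-- Martin's axiom `MA`: the same for families of fewer than `𝔠` dense subsets. -/
def MartinAxiom : Prop :=
  ∀ (P : Type) [Preorder P] [Nonempty P], IsCCC P →
    ∀ 𝒟 : Set (Set P), #𝒟 < 𝔠 → (∀ D ∈ 𝒟, ∀ p : P, ∃ q ∈ D, q ≤ p) →
      ∃ G : Set P, G.Nonempty ∧ (∀ p ∈ G, ∀ q : P, p ≤ q → q ∈ G) ∧
        (∀ p ∈ G, ∀ q ∈ G, ∃ r ∈ G, r ≤ p ∧ r ≤ q) ∧ ∀ D ∈ 𝒟, (G ∩ D).Nonempty

/-- (1) There is a preordered set `P` of forcing conditions such that every condition forces that
`ω₁` is preserved, that Martin's axiom for `ℵ₁` dense sets holds, that the continuum is at most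
`ℵ₂` and that the Lipschitz Baumgartner axiom for the Cantor space fails. (2), (3), (4) The plain
forms of the latter three sentences. (5) Martin's axiom for `ℵ₁` dense sets together with `𝔠 ≤ ℵ₂`
implies Martin's axiom `MA` and the negation of the continuum hypothesis. So in the extension `MA`
holds, `CH` fails and `BA_Lip(2^ω)` fails. -/
theorem result :
    (∃ (P : Type) (_ : Preorder P), Nonempty P ∧ ∀ p : P,
      p ∈ OmegaOnePreserved P ∧ p ∈ MartinHolds P Om1 ∧
        p ∈ ContinuumLe P (ℵ_ 2 : Cardinal.{0}).out ∧ p ∈ fnot (BALipN P)) ∧
    (MartinFor Om1 ↔ MartinAxiomAleph1) ∧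
    ((∃ E : (ℵ_ 2 : Cardinal.{0}).out → ℕ → ℕ, Function.Surjective E) ↔
      (𝔠 : Cardinal.{0}) ≤ ℵ_ 2) ∧
    (BALipEnum ↔ BALip) ∧
    (MartinAxiomAleph1 → (𝔠 : Cardinal.{0}) ≤ ℵ_ 2 →
      MartinAxiom ∧ (ℵ₁ : Cardinal.{0}) < 𝔠) := by
  refine ⟨Pool.Agent.Helper919LB.exists_forcing, martinFor_om1_iff, ?_, balip_iff, ?_⟩
  · have h1 : #(ℕ → ℕ) = (𝔠 : Cardinal.{0}) := by
      simp
    constructor
    · rintro ⟨E, hE⟩
      have h2 := mk_le_of_surjective hE
      rwa [h1, mk_out] at h2
    · intro h
      rw [← h1, ← mk_out (ℵ_ 2)] at h
      obtain ⟨e⟩ := h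
      exact ⟨Function.invFun e, Function.invFun_surjective e.injective⟩
  · intro hMA hc
    refine ⟨?_, Pool.Agent.Y561.KS.aleph_one_lt_of_ma hMA⟩
    intro P _ _ hP 𝒟 h𝒟 hD
    refine hMA P hP 𝒟 ?_ hD
    have h2 : Order.succ (ℵ₁ : Cardinal.{0}) = ℵ_ 2 := by
      rw [Cardinal.succ_aleph]
      norm_num
    have h3 := h𝒟.trans_le hc
    rw [← h2] at h3
    exact Order.lt_succ_iff.1 h3

end Pool.Agent.Results.MP_93aff1_lc.MartinNoLip
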